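import Pool.Agent.N110.IM.Main
import Pool.Agent.N110.IM.Defs
import Pool.Agent.N110.RK.Stat
import Pool.Agent.N110.NV.Fin
import Pool.Agent.R887.PsF
import Pool.Agent.R887.Exc

/-!
# Nonvanishing for varieties of irregularity zero which are dominated by the end of chains of
multi-valued maps, or by a pair with a closed chain of multi-valued maps

By a theorem of Boucksom, Demailly, Paun and Peternell a projective manifold `X` is uniruled if and
only if `K_X` is not pseudo-effective, so that the conjecture `κ = -∞ ⇒ uniruled` says that some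
`m K_X`, `m ≥ 1`, has a section if `K_X` is pseudo-effective. This is proved here for the `X` of
irregularity zero which are dominated by an arbitrary log canonical pair that is reached by chains
of multi-valued maps with small products of degrees; no effectivity or nefness is assumed.
-/

set_option autoImplicit false

open FF Pool.Agent.W602.GT Pool.Agent.Y172 Pool.Agent.R887 Pool.Agent.N110

namespace Pool.Agent.Results.MP_e06174_ag.ChainsNonvanishingH41

/-- `Chain n y' Δ' K N y Δ c`: there is a chain of multi-valued maps from the pair `(X', Δ')` to the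
pair `(X, Δ)`, the varieties being of dimension `n`, and `c` is the product of the degrees of the
maps. This means that `(X, Δ) = (X', Δ')` and `c = 1`, or that there are a chain from `(X', Δ')` to a
pair `(X₁, Δ₁)` with degree `c₁` and a multi-valued map `X₁ ← X'' → X₂ = X` to a log canonical pair:
a variety `X''` with a generically finite rational map `p` to `X₁`, unramified over the prime
divisors `P` with `Δ₁ P < 1`, and a dominant rational map `f` to `X` such that the pull back of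
`K_X + Δ` is at most `K_X''` over these prime divisors and the intersection number
`(f^* H)^(n-1) (p^* H₁)` is at most `c₂ deg f`, `H` and `H₁` being hyperplane sections, and
`c = c₂ c₁`. -/
inductive Chain (n : ℕ) {K' : Type} [Field K'] [Algebra ℂ K'] {N' : ℕ} (y' : Fin (N' + 1) → K')
    (Δ' : Place ℂ K' → ℚ) : ∀ (K : Type) [Field K] [Algebra ℂ K] (N : ℕ) (_ : Fin (N + 1) → K)
      (_ : Place ℂ K → ℚ) (_ : ℝ), Prop
  | refl : Chain n y' Δ' K' N' y' Δ' 1
  | step {K₁ K₂ L : Type} [Field K₁] [Algebra ℂ K₁] [Field K₂] [Algebra ℂ K₂] [Field L]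
      [Algebra ℂ L] {N₁ N₂ : ℕ} {y₁ : Fin (N₁ + 1) → K₁} {Δ₁ : Place ℂ K₁ → ℚ}
      {y₂ : Fin (N₂ + 1) → K₂} {Δ₂ : Place ℂ K₂ → ℚ} {c₁ c₂ : ℝ}
      (h : Chain n y' Δ' K₁ N₁ y₁ Δ₁ c₁) (hy₂ : NormalModel y₂) (hn₂ : Algebra.trdeg ℂ K₂ = n)
      (hΔ₂ : Effective y₂ Δ₂) (hLC₂ : LogCanonical y₂ n Δ₂) (φ : K₂ →ₐ[ℂ] L) (ψ : K₁ →ₐ[ℂ] L)
      (hψ : FiniteDimensional ψ.fieldRange L) (hun : UnramifiedOutside ψ y₁ {P | 1 ≤ Δ₁ P})
      (hpb : MultiPullBackLe φ ψ y₂ n Δ₂ y₁ {P | 1 ≤ Δ₁ P})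
      (hc : MultiDegreeLe φ ψ y₂ y₁ (n - 1) 1 c₂) : Chain n y' Δ' K₂ N₂ y₂ Δ₂ (c₂ * c₁)

section

variable {n : ℕ} {K' : Type} [Field K'] [Algebra ℂ K'] {N' : ℕ} {y' : Fin (N' + 1) → K'}
  {Δ' : Place ℂ K' → ℚ}

theorem Chain.pair (hy' : NormalModel y') (hn' : Algebra.trdeg ℂ K' = n) (hΔ' : Effective y' Δ')
    {K : Type} [Field K] [Algebra ℂ K] {N : ℕ} {y : Fin (N + 1) → K} {Δ : Place ℂ K → ℚ} {c : ℝ}
    (h : Chain n y' Δ' K N y Δ c) :
    NormalModel y ∧ Algebra.trdeg ℂ K = n ∧ Effective y Δ := by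
  induction h with
  | refl => exact ⟨hy', hn', hΔ'⟩
  | step _ hy₂ hn₂ hΔ₂ _ _ _ _ _ _ _ _ => exact ⟨hy₂, hn₂, hΔ₂⟩

theorem Chain.nonneg (hy' : NormalModel y') (hn' : Algebra.trdeg ℂ K' = n)
    (hΔ' : Effective y' Δ') {K : Type} [Field K] [Algebra ℂ K] {N : ℕ} {y : Fin (N + 1) → K}
    {Δ : Place ℂ K → ℚ} {c : ℝ} (h : Chain n y' Δ' K N y Δ c) : 0 ≤ c := by
  induction h with
  | refl => exact zero_le_one
  | step h hy₂ hn₂ _ _ φ ψ hψ _ _ hc ih =>
    obtain ⟨h1, h2, -⟩ := h.pair hy' hn' hΔ'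
    exact mul_nonneg (multi_nonneg' hy₂ hn₂ h1 h2 φ ψ hψ hc) ih

theorem Chain.le (hy' : NormalModel y') (hn' : Algebra.trdeg ℂ K' = n) (hn0 : 0 < n)
    (hΔ' : Effective y' Δ') {μ : ℝ} (hμ : 0 ≤ μ) (hpp : PositiveProductLe y' n Δ' 1 μ)
    {K : Type} [Field K] [Algebra ℂ K] {N : ℕ} {y : Fin (N + 1) → K} {Δ : Place ℂ K → ℚ} {c : ℝ}
    (h : Chain n y' Δ' K N y Δ c) : PositiveProductLe y n Δ 1 (c * μ) := by
  induction h with
  | refl => rwa [one_mul]
  | step h hy₂ hn₂ hΔ₂ hLC₂ φ ψ hψ hun hpb hc ih =>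
    obtain ⟨h1, h2, h3⟩ := h.pair hy' hn' hΔ'
    have h4 := (psef_degree_le h1 h2 hn0 h3 (mul_nonneg (h.nonneg hy' hn' hΔ') hμ) ih hy₂ hn₂ hLC₂
      φ ψ hψ hun hpb (j := 1) (by omega) hc).2
    rw [pow_one, ← mul_assoc] at h4
    exact h4

theorem Chain.finite (hy' : NormalModel y') (hn' : Algebra.trdeg ℂ K' = n) (hn0 : 0 < n)
    (hΔ' : Effective y' Δ') {K : Type} [Field K] [Algebra ℂ K] {N : ℕ} {y : Fin (N + 1) → K}
    {Δ : Place ℂ K → ℚ} {c : ℝ} (h : Chain n y' Δ' K N y Δ c) (hc1 : c < 1) :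
    ∃ μ : ℝ, 0 ≤ μ ∧ PositiveProductLe y n Δ 1 μ := by
  cases h with
  | refl => exact absurd hc1 (lt_irrefl _)
  | step h hy₂ hn₂ hΔ₂ hLC₂ φ ψ hψ hun hpb hc =>
    obtain ⟨h1, h2, h3⟩ := h.pair hy' hn' hΔ'
    exact finite_degree hy₂ hn₂ hn0 hLC₂ h1 h2 h3 φ ψ hψ hun hpb hc

end

section

variable {K : Type} [Field K] [Algebra ℂ K] {N : ℕ}

/-- For all `ε > 0` the pair `(X, Δ)` is the end of a chain of multi-valued maps which starts with a
pair `(X', Δ')`, `Δ' ≥ 0`, such that the product of the degree `c` of the chain and of the positive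
degree `⟨K_X' + Δ'⟩ · H' ^ (n - 1)`, or of an upper bound `μ` of it, is at most `ε`. For instance
`(X, Δ)` is the end of an infinite tower of multi-valued maps, the positive degrees being bounded and
the product of the degrees of the maps zero. -/
def SmallChains (y : Fin (N + 1) → K) (n : ℕ) (Δ : Place ℂ K → ℚ) : Prop :=
  ∀ ε : ℝ, 0 < ε → ∃ (K' : Type) (_ : Field K') (_ : Algebra ℂ K') (N' : ℕ)
    (y' : Fin (N' + 1) → K') (Δ' : Place ℂ K' → ℚ) (μ c : ℝ), NormalModel y' ∧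
      Algebra.trdeg ℂ K' = n ∧ Effective y' Δ' ∧ 0 ≤ μ ∧ PositiveProductLe y' n Δ' 1 μ ∧
      Chain n y' Δ' K N y Δ c ∧ c * μ ≤ ε

/-- There is a closed chain of multi-valued maps from the pair `(X, Δ)`, `Δ ≥ 0`, to itself whose
degree `c` is less than `1`, for instance a self-correspondence `X ← X'' → X` with
`(f^* H)^(n-1) (p^* H) ≤ c deg f`. -/
def ClosedChain (y : Fin (N + 1) → K) (n : ℕ) (Δ : Place ℂ K → ℚ) : Prop :=
  Effective y Δ ∧ ∃ c : ℝ, c < 1 ∧ Chain n y Δ K N y Δ c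

theorem numDimLt_of_chains {n : ℕ} {y : Fin (N + 1) → K} (hy : NormalModel y)
    (hn : Algebra.trdeg ℂ K = n) (hn0 : 0 < n) {Δ : Place ℂ K → ℚ}
    (h : SmallChains y n Δ ∨ ClosedChain y n Δ) : NumDimLt y n Δ 1 := by
  refine PositiveProductLe.numDimLt (PositiveProductLe.of_forall fun ε hε => ?_)
  rcases h with h | ⟨hΔ, c, hc1, h⟩
  · obtain ⟨K', _, _, N', y', Δ', μ, c, hy', hn', hΔ', hμ, hpp, hch, hle⟩ := h ε hε
    exact ⟨_, by linarith, hch.le hy' hn' hn0 hΔ' hμ hpp⟩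
  · obtain ⟨μ, hμ, hpp⟩ := h.finite hy hn hn0 hΔ hc1
    have hc0 := h.nonneg hy hn hΔ
    have hall : ∀ k : ℕ, PositiveProductLe y n Δ 1 (c ^ k * μ) := by
      intro k
      induction k with
      | zero => rwa [pow_zero, one_mul]
      | succ k ih =>
        have h1 := h.le hy hn hn0 hΔ (mul_nonneg (pow_nonneg hc0 k) hμ) ih
        rwa [← mul_assoc, ← pow_succ'] at h1
    have hlim : Filter.Tendsto (fun k : ℕ => c ^ k * μ) Filter.atTop (nhds (0 * μ)) :=
      (tendsto_pow_atTop_nhds_zero_of_lt_one hc0 hc1).mul_const _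
    rw [zero_mul] at hlim
    obtain ⟨k, hk⟩ := (hlim.eventually_lt_const hε).exists
    exact ⟨_, by linarith, hall k⟩

end

/-- Let `(X₁, Δ₁)`, `Δ₁ ≥ 0`, be a pair of dimension `n ≥ 1` which is the end of chains of multi-valued
maps of log canonical pairs of arbitrarily small degree (`SmallChains`), or which has a closed chain
of multi-valued maps to itself of degree less than `1` (`ClosedChain`). Let `(X, Δ)`, `Δ ≥ 0`, be a
pair of dimension `n` which is dominated by `X₁`: there is a dominant rational map `X₁ ⇢ X`, given by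
the homomorphism `π` of the function fields, such that the pull back of `K_X + Δ` is at most
`K_X₁ + Δ₁` over the prime divisors of `X₁`; or `Δ = 0`, `X` has canonical singularities (a projective
manifold, for instance), and the map is arbitrary. Suppose that the irregularity of `X` is zero and
that `K_X + Δ` is pseudo-effective (if `Δ = 0` and `X` is smooth this means, by a theorem of
Boucksom, Demailly, Paun and Peternell, that `X` is not uniruled).

Then the Kodaira dimension of `K_X + Δ` is not `-∞`: some multiple `m (K_X + Δ)`, `m ≥ 1`, has a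
section `ω ≠ 0`; and the Kodaira dimension and the numerical dimension of `K_X + Δ` are both zero. If
moreover `K_X + Δ` is nef, then `ω` has no zeros: `m (K_X + Δ)` is trivial. -/
theorem result
    {K K₁ : Type} [Field K] [Algebra ℂ K] [Field K₁] [Algebra ℂ K₁] {N N₁ n : ℕ}
    {y : Fin (N + 1) → K} {y₁ : Fin (N₁ + 1) → K₁} (hy : NormalModel y) (hy₁ : NormalModel y₁)
    (hn : Algebra.trdeg ℂ K = n) (hn₁ : Algebra.trdeg ℂ K₁ = n) (hn0 : 0 < n)
    {Δ₁ : Place ℂ K₁ → ℚ} (hΔ₁ : Effective y₁ Δ₁)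
    (hchain : SmallChains y₁ n Δ₁ ∨ ClosedChain y₁ n Δ₁)
    {Δ : Place ℂ K → ℚ} (hΔ : Effective y Δ) (π : K →ₐ[ℂ] K₁)
    (hπ : IM.ImagePullLe π y n Δ y₁ Δ₁ ∨ (Δ = 0 ∧ Canonical y n))
    (hq : IrregularityZero y) (hpsef : LogPsef y n Δ) :
    (kodairaDim y n Δ = ((0 : ℕ) : WithBot ℕ) ∧
      ∀ A, Effective y A → Integral y A → numericalDim y n Δ A = ((0 : ℕ) : EReal)) ∧
    ∃ m : ℕ, 1 ≤ m ∧ ∃ ω : (Fin n → Derivation ℂ K K) → K, IsSection y n m (m • Δ) ω ∧
      ω ≠ 0 ∧ (LogNef y n Δ → ∀ P, IsPrimeDivisor y P → OrdEq P ω (-(m * Δ P))) := by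
  have h1 := numDimLt_of_chains hy₁ hn₁ hn0 hchain
  have h2 : NumDimLt y n Δ 1 := by
    rcases hπ with hπ | ⟨rfl, hcan⟩
    · exact IM.numDimLt_img hy hy₁ hn hn₁ π hπ (by omega) h1
    · exact IM.numDimLt_can hy hy₁ hn hn₁ hcan hΔ₁.1 π (by omega) h1
  obtain ⟨m, hm, ω, hω0, hω⟩ := NV.nonvanishing hy hn hn0 hΔ.2 hpsef h2 hq
  exact ⟨abundance_zero hy hn hn0 hΔ h2 hm hω hω0, m, hm, ω, hω, hω0,
    fun hnef P hP => nef_trivialP hy hn hn0 h2 hnef hm hω hω0 P hP⟩

end Pool.Agent.Results.MP_e06174_ag.ChainsNonvanishingH41
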