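import Pool.Agent.V7H74.ImgFin

/-!
# Varieties of geometric genus zero dominated by a product of varieties: a counting condition for the fibres

Let `V = X 0 × ... × X k`, where the `X i` are smooth projective varieties over `ℂ` of dimension
`m i`, and let `V ⇢ W` be a dominant rational map of finite degree to a variety `W`. It need not be
related to the product structure, and it need not be the quotient by a group. Let `s i` be numbers
such that the canonical forms of `X i` separate `s i` general points: for some nonempty open subset
`U` of `X i` any `s i` different points of `U` impose independent conditions on `H⁰(X i, K)`. For a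
curve of gonality `γ` one can take `s i = γ - 1`, and for a smooth hypersurface of degree `d` in
projective space `s i = d - m i - 1`.

For a set `S` of factors let `r(S)` be the number of points of a general fibre of `V ⇢ W` which have
the same coordinates in the factors in `S` as a given one. So `r(∅)` is the degree, and
`r(S) = 1` if `S` contains all factors.

**Theorem.** Let all `s i` be positive. Suppose that for all nonempty sets `A` of factors, except
possibly the sets `A = {j}` where `X j` is a curve,

`r(Aᶜ) ≤ 1 + ∑ i ∈ A, (s i - 1)`.

Then the following are equivalent: `p_g(W) = 0`; `κ(W) = -∞`; `K_W` is not pseudo-effective; `W` is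
uniruled. If there are no exceptions, i.e. if also `r({j}ᶜ) ≤ s j` for the curves `X j`, then none
of them holds: `p_g(W) > 0`.

For example, let the `X i` be `n ≥ 2` curves of gonality at least `γ`, and suppose that for every
set `A` of at least two curves the general fibre has at most `|A| (γ - 2) + 1` points with the same
coordinates outside `A` as a given one. If different points of the general fibre have different
coordinates in every factor then this only means that the degree of `V ⇢ W` is at most
`n (γ - 2) + 1`. So the degree may grow linearly with the number of factors. The start results of this
kind (`MP_813db1_ag.ProductsGenusZero`, `MP_410da7_ag.OpenProductImages`) need that, up to one factor,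
the number of points of each factor below the general fibre is less than `γ`, or that the degree is
at most `2 γ - 3`.

The bound is optimal: let `X 0` be a cyclic covering of the projective line of prime degree `p` with
many branch points, so its gonality is `p` and `s 0 = p - 1`, and let `X 1` be an elliptic curve,
`s 1 = 1`, on which the cyclic group `G` acts by translations. Then `W = (X 0 × X 1) / G` has
`r(∅) = p = s 0 + s 1`, `r({0}) = r({1}) = 1`, `p_g(W) = 0` and `κ(W) = 1`. So the theorem is false
if the bound is increased by one.

The Lean theorem is more general, as the condition need only hold for blocks of factors. The factors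
are divided into blocks `b = t` for a function `b` to the natural numbers. Let `A` be a nonempty set
of factors in the block `t`, and let `b ≤ t` be the union of the blocks up to `t`. The condition is

`r((b ≤ t) ∖ A) ≤ r(b ≤ t) * (1 + ∑ i ∈ A, (s i - 1))`,

except possibly for `A = {j}` where `X j` is a curve in the last block. This is the condition above,
for the images of `V` in the products of `W` and of the factors in the previous blocks and for the
points with the same coordinates in the block `t`. If all blocks have one element then this
is the condition of the start result `MP_813db1_ag.ProductsGenusZero`: the number of points of `X i`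
below a general point of the image of `V` in the product of `W` and of the previous factors is at most
`s i`. A curve which is alone in the last block may be arbitrary, also rational (`s j = 0`).

There is no condition on the irregularity of `W` or of the `X i`.

Proof. If `f i` are canonical forms on the `X i` then the trace on `W` of the product of their pullbacks
is a canonical form on `W`. Suppose that all these traces vanish. This is a relation between the
values of the products at the points of a general fibre. Let `v` be one of these points. Each canonical
form `f i` (with coefficients in the algebraic closure of the function field of `W`) can be chosen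
such that it vanishes at `s i - 1` given points of `X i` but not at the coordinate of `v`. By the
theorem of Hall the counting condition says that every point of the fibre other than `v` can be
assigned to a factor in which its coordinate is different from the one of `v`, such that at most
`s i - 1` points (or classes of points with the same coordinates) are assigned to `X i`. So there is a
product of forms which vanishes at all points of the fibre other than `v`, which is a contradiction.
If `X j` is a curve for which the condition fails then the other coordinates can be eliminated in the
same way, since the other inequalities imply the necessary ones for the images of `V` in the product of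
`W` and the `X i`, `i ≠ j`. It follows that all differentials of the curve `X j` have trace zero on the
image of `{x} × X j` in `W × ∏ i ≠ j, X i` for generic `x`. So this image is a rational curve, and `W`
is uniruled.

The parts of the Lean proof on pull-backs, products, traces and the geometric generic fibre are from the
starting files (`N145/SX` and the files which it imports; helpers 123, 221, 442, 160, 279, 603, 342,
75, 78 and 145).
-/

set_option autoImplicit false
set_option linter.overlappingInstances false
set_option maxHeartbeats 4000000
set_option synthInstance.maxHeartbeats 400000

open FF Module Pool.Agent Pool.Agent.W602.GT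
open Pool.Agent.W619.PQ (IsUniruled)

namespace Pool.Agent.Results.MP_e06174_ag.SpreadFibresUniruledH74

/-- **The canonical forms separate `r` points.** `E` is the function field of a variety `X` of
dimension `m`, and `D` a rational frame of the tangent bundle. The embeddings `σ : E → Ω` are the
generic points of `X` with coordinates in the field `Ω`. At most `r` different such points impose
independent conditions on the canonical forms `ω` which are regular at all prime divisors: if
`∑ c σ * σ (ω D) = 0` for all `ω` then all the coefficients `c σ` are zero. -/
def SeparatesPoints (E : Type) [Field E] [Algebra ℂ E] (m r : ℕ) : Prop :=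
  ∀ D : Fin m → Derivation ℂ E E, LinearIndependent E D →
    ∀ (Ω : Type) [Field Ω] [Algebra ℂ Ω] [IsAlgClosed Ω] (A : Finset (E →ₐ[ℂ] Ω)), A.card ≤ r →
    ∀ c : (E →ₐ[ℂ] Ω) → Ω,
    (∀ ω : (Fin m → Derivation ℂ E E) → E, IsPluri 1 ω →
      (∀ P : Place ℂ E, Divisorial m P → RegAt P ω) → ∑ σ ∈ A, c σ * σ (ω D) = 0) →
    ∀ σ ∈ A, c σ = 0

/-- The geometric genus of the varieties with function field `L`, of dimension `n`, is zero: the only
canonical form which is regular at all prime divisors is `0`. -/
def GenusZero (L : Type) [Field L] [Algebra ℂ L] (n : ℕ) : Prop :=
  ∀ ω : (Fin n → Derivation ℂ L L) → L, IsPluri 1 ω →
    (∀ P : Place ℂ L, Divisorial n P → RegAt P ω) → ∀ D, ω D = 0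

variable {K : Type} [Field K] [Algebra ℂ K] {k : ℕ}

/-- The number of points of a general fibre of `V ⇢ W` which have the same coordinates in the factors
in `S` as a given point of the fibre. Here `K` and `L` are the function fields of `V` and `W`, and
`F i` is the one of the factor `X i`: it is the degree of `K` over the field which is generated over
`L` by the `F i`, `i ∈ S`. -/
noncomputable def agree (F : Fin (k + 1) → IntermediateField ℂ K) (L : Type) [Field L]
    [Algebra L K] (S : Set (Fin (k + 1))) : ℕ :=
  finrank (IntermediateField.adjoin L {z | ∃ i ∈ S, z ∈ F i}) K

/-- **The counting condition** with the factor `c`, for the dimensions `m i`, the numbers `s i` of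
points and the blocks `b = t`. -/
def IsSpread (F : Fin (k + 1) → IntermediateField ℂ K) (L : Type) [Field L]
    [Algebra L K] (m s b : Fin (k + 1) → ℕ) (c : ℕ) : Prop :=
  ∀ (t : ℕ) (A : Finset (Fin (k + 1))), A.Nonempty → (∀ i ∈ A, b i = t) →
    c * agree F L {i | b i ≤ t ∧ i ∉ A} ≤ agree F L {i | b i ≤ t} * (1 + ∑ i ∈ A, (s i - 1)) ∨
    ∃ j, A = {j} ∧ m j = 1 ∧ ∀ i, b i ≤ b j

/-- **Varieties of geometric genus zero dominated by a product of varieties.** Let `K` be the
function field of the product `V` of the varieties `X i`, `i ≤ k`, with the function fields `F i`, of
dimension `m i`, i.e. `K` is the compositum and its transcendence degree is `∑ m i`. Let `L ⊆ K` be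
the function field of a variety `W` such that the extension is finite. Suppose that the canonical
forms of `X i` separate `s i` points, where `s i > 0`, except possibly if `X i` is a curve which is
alone in the last block, and that the counting condition holds. Then the following are equivalent:
the geometric genus of `W` is zero; `κ(W) = -∞`; `K_W` is not pseudo-effective; `W` is uniruled. If
the counting condition also holds for the curves in the last block then the geometric genus is
positive. -/
theorem result [Algebra.EssFiniteType ℂ K] (m s b : Fin (k + 1) → ℕ)
    (F : Fin (k + 1) → IntermediateField ℂ K) [∀ i, Algebra.EssFiniteType ℂ (F i)]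
    (hF : ⨆ i, F i = ⊤) (hm : ∀ i, Algebra.trdeg ℂ (F i) = m i)
    (hK : Algebra.trdeg ℂ K = (∑ i, m i : ℕ)) (L : Type) [Field L] [Algebra ℂ L]
    [Algebra L K] [IsScalarTower ℂ L K] [FiniteDimensional L K]
    (hs : ∀ i, 1 ≤ s i ∨ (m i = 1 ∧ ∀ j, j ≠ i → b j < b i))
    (hX : ∀ i, SeparatesPoints (F i) (m i) (s i)) (hW : IsSpread F L m s b 1) :
    [GenusZero L (∑ i, m i), ¬ KodGe ℂ L (∑ i, m i) (fun _ => False) 0,
      ¬ Psef ℂ L (∑ i, m i) (fun _ => False), IsUniruled ℂ L (∑ i, m i)].TFAE ∧
    ((∀ j, m j = 1 → (∀ i, b i ≤ b j) → agree F L {i | i ≠ j} ≤ s j) →
      ¬ GenusZero L (∑ i, m i)) := by
  choose x D hx hD using fun i => Pool.Agent.Y172.exists_crd (hm i)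
  have hsep : ∀ i, N145.SX.SepX (x i) (fun _ => False) (s i + 1) := fun i =>
    N145.SX.sepX_of' (hx i) (hD i) fun Ω _ _ _ A hA c hc =>
      hX i (D i) (N145.SX.dual_indep (hD i)) Ω A hA c hc
  refine ⟨V7H74.HL.one_tfae (L := L) hF hm hK hx hs hsep hW, fun h hz => ?_⟩
  obtain ⟨⟨j, h1, h2, h3⟩, -⟩ := V7H74.HL.one_main (L := L) hF hm hK hx hs hsep hW hz
  exact absurd (h j h1 h2) (not_le.2 h3)

end Pool.Agent.Results.MP_e06174_ag.SpreadFibresUniruledH74
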