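import Pool.Agent.V7H50.Main

/-! Kodaira dimension `-∞` and uniruledness for quotients of (generically finite covers of) products
of a variety and curves: a criterion with ages and volumes. -/

set_option autoImplicit false
set_option linter.overlappingInstances false

universe u

open FF IntermediateField Pool.Agent.W619.PQ Pool.Agent.W619.TW Pool.Agent.V7H50

namespace Pool.Agent.Results.MP_e06174_ag.VolumeAgeQuotientsH50

/-- Let `Y` be a projective variety of dimension `d` with function field `M` (for instance a
point), `Z` a projective variety of dimension `d + n` with function field `L`, `F i` (`i < n`) the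
function fields of curves `C i`, with a generically finite rational map from `Z` to the product of
`Y` and the curves (`halg`), `G` a finite group of automorphisms of `L` which permutes the curves
through `σ`, and `X` a projective manifold birational to `Z / G`. Assume `NumCond`: the elements of
`G` with fixed points have age at least `1` (corrected by effective divisors `ν i` on the curves),
except at finitely many strata whose total volume is smaller than the product of the numbers
`N (2 g_i - 2) - deg (ν i)`. If `X` has Kodaira dimension `-∞`, then `Y` has Kodaira dimension `-∞`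
or one of the curves is rational. If moreover `Z` is the product and `Y` has Kodaira dimension at
least `0` or is uniruled, then `X` is uniruled. -/
theorem result {L : Type u} [Field L] [Algebra ℂ L] (d n : ℕ)
    (hn : Algebra.trdeg ℂ L = (d + n : ℕ))
    (M : IntermediateField ℂ L) [Algebra.EssFiniteType ℂ M] (hM : Algebra.trdeg ℂ M = d)
    (F : Fin n → IntermediateField ℂ L) (hF : ∀ i, IsFF ℂ (F i))
    (halg : Algebra.IsAlgebraic ↥(M ⊔ ⨆ i, F i) L)
    (G : Subgroup (L ≃ₐ[ℂ] L)) [Finite G] (σ : G →* Equiv.Perm (Fin n))
    (hσ : ∀ (g : G) i, ∀ z ∈ F i, (g : L ≃ₐ[ℂ] L) z ∈ F (σ g i))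
    (h : NumCond M G σ F)
    (hκ : KodairaNeg ℂ (fixedField G) (d + n)) :
    (KodairaNeg ℂ M d ∨ ∃ i, ∃ t : F i, ℂ⟮t⟯ = ⊤) ∧
    (M ⊔ (⨆ i, F i) = ⊤ → (KodairaNeg ℂ M d → IsUniruled ℂ M d) →
      IsUniruled ℂ (fixedField G) (d + n)) := by
  exact classN d n hn M hM F halg G σ hσ h hκ

end Pool.Agent.Results.MP_e06174_ag.VolumeAgeQuotientsH50
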